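import Pool.Agent.H67.HM.Stm2

open Polynomial MeasureTheory Filter Topology

namespace HM

theorem DIL_coeff {G ι : Type} [AddCommGroup G] (s : Finset ι) (f : ι → G) (c : ι → ℂ) (g : G) :
    (∑ a ∈ s, AddMonoidAlgebra.single (f a) (c a) : AddMonoidAlgebra ℂ G).coeff g =
      ∑ a ∈ s, (Finsupp.single (f a) (c a) : G →₀ ℂ) g := by
  rw [AddMonoidAlgebra.coeff_sum, Finsupp.finsetSum_apply]
  rfl

theorem DIL_coeff_at {G ι : Type} [AddCommGroup G] (s : Finset ι) (f : ι → G) (c : ι → ℂ)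
    (hf : Set.InjOn f s) (a : ι) (ha : a ∈ s) :
    (∑ a ∈ s, AddMonoidAlgebra.single (f a) (c a) : AddMonoidAlgebra ℂ G).coeff (f a) = c a := by
  rw [DIL_coeff, Finset.sum_eq_single a]
  · simp
  · intro b hb hba
    rw [Finsupp.single_eq_of_ne]
    intro h
    exact hba (hf hb ha h.symm)
  · intro h
    exact absurd ha h

theorem DIL_supp {G ι : Type} [AddCommGroup G] (s : Finset ι) (f : ι → G) (c : ι → ℂ) (g : G)
    (hg : g ∈ (∑ a ∈ s, AddMonoidAlgebra.single (f a) (c a) : AddMonoidAlgebra ℂ G).coeff.support) :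
    ∃ a ∈ s, f a = g := by
  by_contra hc
  push Not at hc
  rw [Finsupp.mem_support_iff, DIL_coeff] at hg
  apply hg
  apply Finset.sum_eq_zero
  intro a ha
  rw [Finsupp.single_eq_of_ne]
  intro h
  exact hc a ha h.symm

theorem DIL_nrm {G ι : Type} [AddCommGroup G] (s : Finset ι) (f : ι → G) (c : ι → ℂ)
    (hf : Set.InjOn f s) (r : ℝ) (hr : 1 ≤ r) :
    Nn r (∑ a ∈ s, AddMonoidAlgebra.single (f a) (c a) : AddMonoidAlgebra ℂ G) =
      (∑ a ∈ s, ‖c a‖ ^ r) ^ (1 / r) := by
  classical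
  unfold Nn
  congr 1
  have hsub : (∑ a ∈ s, AddMonoidAlgebra.single (f a) (c a) :
      AddMonoidAlgebra ℂ G).coeff.support ⊆ s.image f := by
    intro g hg
    obtain ⟨a, ha, hag⟩ := DIL_supp s f c g hg
    exact Finset.mem_image.mpr ⟨a, ha, hag⟩
  rw [Finset.sum_subset hsub, Finset.sum_image hf]
  · apply Finset.sum_congr rfl
    intro a ha
    rw [DIL_coeff_at s f c hf a ha]
  · intro g _ hg
    rw [Finsupp.notMem_support_iff] at hg
    rw [hg, norm_zero, Real.zero_rpow (by linarith)]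

theorem DIL_sum {G : Type} [AddCommGroup G] (y : AddMonoidAlgebra ℂ G) :
    y = ∑ j ∈ y.coeff.support, AddMonoidAlgebra.single j (y.coeff j) := by
  conv_lhs => rw [← AddMonoidAlgebra.sum_coeff_single y]
  rfl

theorem DIL_dl (t : ℤ) (y : RR) :
    dl t y = ∑ j ∈ y.coeff.support, AddMonoidAlgebra.single (t * j) (y.coeff j) := by
  conv_lhs => rw [DIL_sum y]
  rw [map_sum]
  apply Finset.sum_congr rfl
  intro j _
  show AddMonoidAlgebra.mapDomain _ _ = _
  rw [AddMonoidAlgebra.mapDomain_single]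
  rfl

theorem DIL_mul (x y : RR) (t : ℤ) :
    x * dl t y = ∑ q ∈ x.coeff.support ×ˢ y.coeff.support,
      AddMonoidAlgebra.single (q.1 + t * q.2) (x.coeff q.1 * y.coeff q.2) := by
  rw [DIL_dl]
  conv_lhs => rw [DIL_sum x]
  rw [Finset.sum_mul_sum, Finset.sum_product]
  apply Finset.sum_congr rfl
  intro i _
  apply Finset.sum_congr rfl
  intro j _
  rw [AddMonoidAlgebra.single_mul_single]

theorem DIL_proved : S_DIL := by
  intro r x y W t hr ht hx
  have hinj2 : Set.InjOn (fun j : ℤ => t * j) (y.coeff.support : Set ℤ) := by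
    intro a _ b _ h
    have ht0 : t ≠ 0 := by
      have : (0 : ℤ) ≤ W := by positivity
      omega
    exact mul_left_cancel₀ ht0 h
  have hinj : Set.InjOn (fun q : ℤ × ℤ => q.1 + t * q.2)
      ((x.coeff.support ×ˢ y.coeff.support : Finset (ℤ × ℤ)) : Set (ℤ × ℤ)) := by
    rintro ⟨a, b⟩ hab ⟨c, d⟩ hcd h
    rw [Finset.mem_coe, Finset.mem_product] at hab hcd
    simp only at h hab hcd
    have h1 := hx a hab.1
    have h2 := hx c hcd.1
    have h3 : t * (b - d) = c - a := by linarith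
    have hW : (0 : ℤ) ≤ W := by positivity
    rw [abs_le] at h1 h2
    have hbd : b = d := by
      by_contra hne
      have hne' : b - d ≠ 0 := sub_ne_zero.mpr hne
      have h4 : t ≤ |t * (b - d)| := by
        rw [abs_mul, abs_of_pos (by omega : 0 < t)]
        have : 1 ≤ |b - d| := Int.one_le_abs hne'
        nlinarith
      rw [h3] at h4
      have h5 : |c - a| ≤ 2 * W := by
        rw [abs_le]
        constructor <;> linarith
      omega
    subst hbd
    simp only [sub_self, mul_zero] at h3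
    have : a = c := by linarith
    rw [this]
  refine ⟨?_, ?_, ?_⟩
  · rw [DIL_mul, DIL_nrm _ _ _ hinj r hr]
    unfold Nn
    rw [← Real.mul_rpow (Finset.sum_nonneg fun _ _ => by positivity)
      (Finset.sum_nonneg fun _ _ => by positivity), Finset.sum_mul_sum, Finset.sum_product]
    congr 1
    apply Finset.sum_congr rfl
    intro i _
    apply Finset.sum_congr rfl
    intro j _
    rw [norm_mul, Real.mul_rpow (norm_nonneg _) (norm_nonneg _)]
  · rw [DIL_dl, DIL_nrm _ _ _ hinj2 r hr]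
    rfl
  · intro k hk
    rw [DIL_mul] at hk
    obtain ⟨⟨i, j⟩, hij, h⟩ := DIL_supp _ _ _ _ hk
    rw [Finset.mem_product] at hij
    exact ⟨i, hij.1, j, hij.2, h.symm⟩

end HM
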