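import Pool.Agent.H67.HM.Stm2

open Polynomial MeasureTheory Filter Topology

namespace HM

theorem MOD_su {G : Type} [AddCommGroup G] (k : ℕ) (b₁ : AddMonoidAlgebra ℂ G) (s₁ : ℝ)
    (h : Su b₁ s₁) : Su (∏ a : Fin k, em a b₁) (s₁ ^ k) := by
  intro χ h1 h2
  rw [map_prod, norm_prod]
  have h3 : ∀ a : Fin k, ‖χ (em a b₁)‖ ≤ s₁ := by
    intro a
    have hem : ∀ (g : G) (c : ℂ), em a (AddMonoidAlgebra.single g c) =
        AddMonoidAlgebra.single (Pi.single a g : Fin k → G) c := by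
      intro g c
      show AddMonoidAlgebra.mapDomain _ _ = _
      rw [AddMonoidAlgebra.mapDomain_single]
      rfl
    apply h (χ.comp (em a))
    · intro g c
      rw [RingHom.comp_apply, RingHom.comp_apply, hem, hem]
      exact h1 _ c
    · intro g
      rw [RingHom.comp_apply, hem]
      exact h2 _
  calc ∏ a : Fin k, ‖χ (em a b₁)‖ ≤ ∏ _a : Fin k, s₁ :=
        Finset.prod_le_prod (fun _ _ => norm_nonneg _) (fun a _ => h3 a)
    _ = s₁ ^ k := by simp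

theorem MOD_proved (hMD : S_MD1) (hNUM : S_NUM) (hT : S_TEN) (hN : S_NRM) : S_MOD := by
  intro p hp j₀ η ρ _hj₀ hη hρ
  obtain ⟨k, N, hk, hN1, hjN, hone, hnum⟩ := hNUM p hp j₀ η hη
  have hp1 : 1 ≤ p := by linarith
  have hq1 : 1 ≤ p / (p - 1) := by
    rw [le_div_iff₀ (by linarith)]
    linarith
  obtain ⟨c, hc⟩ : ∃ c : ℕ → ℝ, ∀ i, c i = ((N : ℝ) ^ i / (N.descFactorial i : ℝ)) ^ (1 - 1 / p) *
      (i.factorial : ℝ) ^ (-(1 / p)) := ⟨_, fun _ => rfl⟩
  have hc0 : ∀ i, 0 ≤ c i := by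
    intro i
    rw [hc]
    positivity
  obtain ⟨B, hB⟩ : ∃ B, B = 2 + ∑ i ∈ Finset.range (N + 1), c i := ⟨_, rfl⟩
  have hBs : 0 ≤ ∑ i ∈ Finset.range (N + 1), c i := Finset.sum_nonneg fun i _ => hc0 i
  have hB1 : 1 ≤ B := by linarith
  have hBc : ∀ i ≤ N, c i + 1 ≤ B := by
    intro i hi
    have := Finset.single_le_sum (f := c) (fun i _ => hc0 i)
      (Finset.mem_range.mpr (Nat.lt_succ_of_le hi))
    linarith
  have hk0 : (0 : ℝ) < k := by exact_mod_cast hk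
  have hBk : 0 < (k : ℝ) * B ^ k := by positivity
  obtain ⟨ρ₁, hρ₁⟩ : ∃ ρ₁, ρ₁ = min (min 1 ρ) (ρ / (k * B ^ k)) := ⟨_, rfl⟩
  have hρ0 : 0 < ρ₁ := by
    rw [hρ₁]
    exact lt_min (lt_min one_pos hρ) (by positivity)
  have hρ1 : ρ₁ ≤ 1 := by
    rw [hρ₁]
    exact (min_le_left _ _).trans (min_le_left _ _)
  have hρρ : ρ₁ ≤ ρ := by
    rw [hρ₁]
    exact (min_le_left _ _).trans (min_le_right _ _)
  have hρB : (k : ℝ) * B ^ k * ρ₁ ≤ ρ := by
    have : ρ₁ ≤ ρ / (k * B ^ k) := by rw [hρ₁]; exact min_le_right _ _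
    rw [le_div_iff₀ hBk] at this
    linarith
  obtain ⟨b₁, E, s₁, hs0, hE0, hsup, hbq, hEp, hact, hsu, hsρ, hE2⟩ := hMD p hp N ρ₁ hN1 hρ0
  have hEc : ∀ i ≤ N, Nn p (E i) ≤ c i := by
    intro i hi
    rw [hc]
    exact hEp i hi
  refine ⟨k, N, ∏ a : Fin k, em a b₁, fun i => ∏ a : Fin k, em a (E i), s₁ ^ k,
    by positivity, ?_, ?_, ?_, ?_, ?_, ?_, MOD_su k b₁ s₁ hsu, ?_, ?_⟩
  · simp only [hE0, map_one, Finset.prod_const_one]
  · intro α hα
    rw [Finsupp.mem_support_iff, hT.coeff] at hα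
    rw [Finset.prod_ne_zero_iff] at hα
    have hα' : ∀ a : Fin k, 0 ≤ α a ∧ α a ≠ 0 := by
      intro a
      exact hsup (α a) (Finsupp.mem_support_iff.mpr (hα a (Finset.mem_univ a)))
    constructor
    · intro a
      exact (hα' a).1
    · intro h0
      apply (hα' ⟨0, by omega⟩).2
      rw [h0]
      rfl
  · rw [hT.nrm k (fun _ => b₁) _ hq1]
    exact Finset.prod_le_one (fun _ _ => hN.nonneg _ _) (fun _ _ => hbq)
  · rw [hT.nrm k (fun _ => E 1) _ hp1]
    apply Finset.prod_le_one (fun _ _ => hN.nonneg _ _)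
    intro _ _
    exact (hEp 1 hN1).trans hone.le
  · intro i hi hij
    rw [hT.nrm k (fun _ => E i) _ hp1]
    refine le_trans ?_ (hnum i hi hij)
    simp only [Finset.prod_const, Finset.card_univ, Fintype.card_fin]
    exact pow_le_pow_left₀ (hN.nonneg _ _) (hEp i (hij.trans hjN)) k
  · intro i hi j hj
    have h1 : (∏ a : Fin k, em a b₁) ^ j * (∏ a : Fin k, em a (E i)) =
        ∏ a : Fin k, em a (b₁ ^ j * E i) := by
      rw [← Finset.prod_pow, ← Finset.prod_mul_distrib]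
      apply Finset.prod_congr rfl
      intro a _
      rw [map_mul, map_pow]
    simp only
    rw [h1]
    refine le_trans (hT.sub k (fun _ => b₁ ^ j * E i) (fun _ => E (i - j)) p B ρ₁ hp1 hB1 hρ0.le
      ?_ ?_ ?_) hρB
    · intro _
      have h2 : b₁ ^ j * E i = (b₁ ^ j * E i - E (i - j)) + E (i - j) := by ring
      rw [h2]
      refine (hN.add _ _ _ hp1).trans ?_
      have h3 := hact i (hi.trans hjN) j hj
      have h4 := hEc (i - j) (by omega)
      have h5 := hBc (i - j) (by omega)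
      linarith
    · intro _
      have h4 := hEc (i - j) (by omega)
      have h5 := hBc (i - j) (by omega)
      linarith
    · intro _
      exact hact i (hi.trans hjN) j hj
  · have h1 : s₁ ^ k ≤ s₁ := by
      calc s₁ ^ k ≤ s₁ ^ 1 := pow_le_pow_of_le_one hs0 (hsρ.trans hρ1) hk
        _ = s₁ := pow_one _
    linarith
  · intro i hi
    rw [hT.nrm k (fun _ => E i) _ (by norm_num)]
    simp only [Finset.prod_const, Finset.card_univ, Fintype.card_fin]
    have h1 : Nn 2 (E i) ^ k * (s₁ ^ k) ^ (i + 1) = (Nn 2 (E i) * s₁ ^ (i + 1)) ^ k := by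
      rw [mul_pow, ← pow_mul, ← pow_mul, mul_comm k (i + 1)]
    rw [h1]
    have h2 := hE2 i (hi.trans hjN)
    have h3 : 0 ≤ Nn 2 (E i) * s₁ ^ (i + 1) := mul_nonneg (hN.nonneg _ _) (by positivity)
    calc (Nn 2 (E i) * s₁ ^ (i + 1)) ^ k ≤ ρ₁ ^ k := pow_le_pow_left₀ h3 h2 k
      _ ≤ ρ₁ ^ 1 := pow_le_pow_of_le_one hρ0.le hρ1 hk
      _ = ρ₁ := pow_one _
      _ ≤ ρ := hρρ

end HM
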